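import Pool.Agent.TH641.NW.End2
import Pool.Agent.TH864.SX.Eleven
import Pool.Agent.TH469.SX.Fifteen
import Pool.Agent.R332.TW.Rot

/-!
# Eleven and fifteen points: the conjecture in every degree for most multiplicities

For `n = 11` and for `n = 15` the set of the multiplicities `m` for which the space of the
plane curves of degree `d` with `n` general points of multiplicity `m` does not have the expected
dimension in EVERY degree `d` has upper density at most `(√n - 3) / 6`, which is less than `0.053`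
for `n = 11` and less than `0.146` for `n = 15`.
-/

set_option autoImplicit false

namespace Pool.Agent.Results.MP_d03834_ag.DensityOfMultiplicities

open MvPolynomial Filter

/-- For general points `P 1, …, P n` (outside the hypersurface `F = 0` of the space of all
configurations) the space of the forms of degree `d` which vanish to order at least `m` at all the
points has the expected dimension, for every degree `d`. -/
def AllDegrees (n m : ℕ) : Prop :=
  ∃ F : MvPolynomial (Fin n × Fin 2) ℂ, F ≠ 0 ∧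
    ∀ P : Fin n → Fin 2 → ℂ,
      MvPolynomial.eval (fun ij : Fin n × Fin 2 => P ij.1 ij.2) F ≠ 0 →
      ∀ d : ℕ,
        Module.finrank ℂ
          ↥(MvPolynomial.homogeneousSubmodule (Fin 3) ℂ d ⊓
            Submodule.restrictScalars ℂ
              (⨅ i : Fin n,
                (Ideal.span
                  ({MvPolynomial.X 0 - MvPolynomial.C (P i 0) * MvPolynomial.X 2,
                    MvPolynomial.X 1 - MvPolynomial.C (P i 1) * MvPolynomial.X 2} :
                    Set (MvPolynomial (Fin 3) ℂ))) ^ m))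
        = Nat.choose (d + 2) 2 - n * Nat.choose (m + 1) 2

/-- the lower bound of the window, `2 / 3 + 9 / (4 √n)` is larger than `√n - 3` for `n = 11, 15` -/
lemma min_low {n : ℕ} (h : n = 11 ∨ n = 15) :
    min (√(n : ℝ) - 3) (2 / 3 + 9 / (4 * √(n : ℝ))) = √(n : ℝ) - 3 := by
  apply min_eq_left
  have h1 : √(n : ℝ) ≤ 3.873 := by
    rw [Real.sqrt_le_iff]
    refine ⟨by norm_num, ?_⟩
    rcases h with rfl | rfl <;> norm_num
  have h0 : 0 < √(n : ℝ) := by
    apply Real.sqrt_pos.2
    rcases h with rfl | rfl <;> norm_num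
  have h2 : (0.5 : ℝ) ≤ 9 / (4 * √(n : ℝ)) := by
    rw [le_div_iff₀ (by positivity)]
    linarith
  linarith

/-- A multiplicity which is not settled gives a degree in the window. -/
lemma exists_degree {n m : ℕ} (hn : 10 ≤ n) (hm : 1 ≤ m) (h : ¬ AllDegrees n m) :
    ∃ d : ℕ, √(n : ℝ) * (2 * m + 1) - (2 * d + 3) ≤
        min (√(n : ℝ) - 3) (2 / 3 + 9 / (4 * √(n : ℝ))) ∧
      (2 * (d : ℝ) + 3) - √(n : ℝ) * (2 * m + 1) ≤
        min (√(n : ℝ) - 3) (2 / 3 + 1 / (4 * √(n : ℝ))) ∧
      (n = 11 ∨ n = 15 → 3 ∣ d ∧ 2 * (d : ℝ) + 3 < √(n : ℝ) * (2 * m + 1)) := by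
  by_contra hcon
  push Not at hcon
  apply h
  obtain ⟨F1, hF1, hF1'⟩ := TH641.NW.expDim_uni_win2 (L := ℂ) hn hm
  have h3 : ∃ F : MvPolynomial (Fin n × Fin 2) ℚ, F ≠ 0 ∧ ∀ P : Fin n → Fin 2 → ℂ,
      MvPolynomial.aeval (fun ij : Fin n × Fin 2 => P ij.1 ij.2) F ≠ 0 →
      ∀ d : ℕ, ¬ (n = 11 ∨ n = 15 → 3 ∣ d ∧
        2 * (d : ℝ) + 3 < √(n : ℝ) * (2 * m + 1)) → H932R3.ExpDim ℂ (fun _ => m) P d := by
    by_cases h11 : n = 11
    · subst h11
      obtain ⟨F, hF, hF'⟩ := TH864.SX.uniform11 m
      refine ⟨F, hF, fun P hP d hd => hF' P hP d ?_⟩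
      push Not at hd
      obtain ⟨-, hd⟩ := hd
      by_cases hd3 : 3 ∣ d
      · right; right
        have := hd hd3
        push_cast at this
        exact this
      · exact Or.inl hd3
    · by_cases h15 : n = 15
      · subst h15
        obtain ⟨F, hF, hF'⟩ := TH469.SX.fifteen m
        refine ⟨F, hF, fun P hP d hd => hF' P hP d ?_⟩
        push Not at hd
        obtain ⟨-, hd⟩ := hd
        by_cases hd3 : 3 ∣ d
        · right; right
          have := hd hd3
          push_cast at this
          exact this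
        · exact Or.inl hd3
      · refine ⟨1, one_ne_zero, fun P _ d hd => ?_⟩
        exact absurd (fun h => by rcases h with h | h <;> contradiction) hd
  obtain ⟨F2, hF2, hF2'⟩ := h3
  refine ⟨(F1 * F2).map (algebraMap ℚ ℂ),
    H932R3.map_ne_zero_of (mul_ne_zero hF1 hF2), fun P hP d => ?_⟩
  rw [MvPolynomial.eval_map] at hP
  have hP' : MvPolynomial.aeval (fun ij : Fin n × Fin 2 => P ij.1 ij.2) (F1 * F2) ≠ 0 := hP
  rw [map_mul] at hP'
  have h1 : H932R3.ExpDim ℂ (fun _ => m) P d := by
    by_cases ha : √(n : ℝ) * (2 * m + 1) - (2 * d + 3) ≤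
        min (√(n : ℝ) - 3) (2 / 3 + 9 / (4 * √(n : ℝ)))
    · by_cases hb : (2 * (d : ℝ) + 3) - √(n : ℝ) * (2 * m + 1) ≤
        min (√(n : ℝ) - 3) (2 / 3 + 1 / (4 * √(n : ℝ)))
      · obtain ⟨h5, h6⟩ := hcon d ha hb
        refine hF2' P (right_ne_zero_of_mul hP') d fun h7 => ?_
        obtain ⟨h8, h9⟩ := h7 h5
        exact absurd h9 (not_lt.2 (h6 h8))
      · exact hF1' P (left_ne_zero_of_mul hP') d (Or.inr (by linarith [not_le.1 hb]))
    · exact hF1' P (left_ne_zero_of_mul hP') d (Or.inl (by linarith [not_le.1 ha]))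
  unfold H932R3.ExpDim at h1
  rw [Finset.sum_const, Finset.card_univ, Fintype.card_fin, smul_eq_mul] at h1
  exact h1

/-- shift from `1, …, M` to `0, …, M - 1` -/
lemma count_shift (p q : ℕ → Prop) [DecidablePred p] [DecidablePred q] (M : ℕ)
    (h : ∀ m : ℕ, p (m + 1) → q m) :
    ((Finset.Icc 1 M).filter p).card ≤ ((Finset.range M).filter q).card := by
  have e : (Finset.Icc 1 M).filter p ⊆ ((Finset.range M).filter q).image (· + 1) := by
    intro m hm
    rw [Finset.mem_filter, Finset.mem_Icc] at hm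
    rw [Finset.mem_image]
    refine ⟨m - 1, ?_, by omega⟩
    rw [Finset.mem_filter, Finset.mem_range]
    refine ⟨by omega, h _ ?_⟩
    have : m - 1 + 1 = m := by omega
    rw [this]
    exact hm.2
  exact (Finset.card_le_card e).trans Finset.card_image_le

open Classical in
/-- **For 11 and for 15 points the conjecture holds in every degree for all multiplicities `m`
outside a set of upper density at most `(√n - 3) / 6`.** -/
theorem result :
    (∀ n : ℕ, n = 11 ∨ n = 15 → ∀ c : ℝ, (√(n : ℝ) - 3) / 6 < c → ∀ᶠ M : ℕ in atTop,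
      (((Finset.Icc 1 M).filter fun m => ¬ AllDegrees n m).card : ℝ) < c * M) ∧
    (√(11 : ℝ) - 3) / 6 < 0.053 ∧ (√(15 : ℝ) - 3) / 6 < 0.146 := by
  refine ⟨?_, ?_, ?_⟩
  · intro n h11 c hc
    have hn : 10 ≤ n := by omega
    have hsq : ¬ IsSquare n := by
      rintro ⟨k, hk⟩
      rcases h11 with h | h <;> rw [h] at hk
      · have : k ≤ 3 := by nlinarith
        interval_cases k <;> omega
      · have : k ≤ 3 := by nlinarith
        interval_cases k <;> omega
    have hirr : Irrational √(n : ℝ) := by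
      rw [irrational_sqrt_natCast_iff]
      exact hsq
    have hs3 : 3 < √(n : ℝ) := by
      apply Real.lt_sqrt_of_sq_lt
      have : (10 : ℝ) ≤ n := by exact_mod_cast hn
      linarith
    have hirr3 : Irrational (√(n : ℝ) / 3) := by
      have := hirr.div_natCast (m := 3) (by norm_num)
      simpa using this
    have h1 := R332.TW.rotation_freq hirr3 (√(n : ℝ) / 2 - 1 / 2)
      (c₀ := (√(n : ℝ) - 3) / 6) (by linarith) hc
    filter_upwards [h1] with M hM
    refine lt_of_le_of_lt ?_ hM
    have h2 := count_shift (fun m => ¬ AllDegrees n m) (fun m : ℕ => ∃ z : ℤ,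
      0 ≤ √(n : ℝ) / 3 * m + (√(n : ℝ) / 2 - 1 / 2) - z ∧
      √(n : ℝ) / 3 * m + (√(n : ℝ) / 2 - 1 / 2) - z ≤ (√(n : ℝ) - 3) / 6) M (by
        intro m hm
        obtain ⟨d, h3, -, h5⟩ := exists_degree hn (by omega) hm
        rw [min_low h11] at h3
        obtain ⟨⟨e, rfl⟩, h6⟩ := h5 h11
        push_cast at h3 h6
        refine ⟨e, ?_, ?_⟩
        · push_cast
          linarith
        · push_cast
          linarith)
    exact_mod_cast h2
  · have h1 : √(11 : ℝ) < 3.3168 := by
      rw [Real.sqrt_lt' (by norm_num)]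
      norm_num
    linarith
  · have h1 : √(15 : ℝ) < 3.873 := by
      rw [Real.sqrt_lt' (by norm_num)]
      norm_num
    linarith

end Pool.Agent.Results.MP_d03834_ag.DensityOfMultiplicities
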